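import Mathlib
import Pool.Agent.GrC.Stmt
import Pool.Agent.GrC.Final

/-!
Characteristic two: for every smooth projective curve `X` of genus `2m + 1`, `m ≥ 2`, over an
algebraically closed field of characteristic two, the dimension of `K_{m-1,2}(X, ω_X)` has the
parity of the binomial coefficient `C(2m+1, m)`.  Hence `K_{2^(n-1)-2, 2}(X, ω_X) ≠ 0` for every
curve of genus `2^n - 1`, `n ≥ 3`, and the generic Green conjecture fails for these genera.
-/

set_option autoImplicit false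

namespace Pool.Agent.Results.MP_b7a493_ag.CharTwoParity

open Polynomial Pool.Agent.GrS

/-- Let `X` be the smooth projective curve with function field `F` over the algebraically closed
field `k` of characteristic two.  If the genus of `X` is `2m + 1` with `m ≥ 2`, then
`dim K_{m-1,2}(X, ω_X) ≡ C(2m+1, m)` modulo `2`; in particular, if the genus is `2^n - 1` with
`n ≥ 3`, then `K_{2^(n-1)-2, 2}(X, ω_X) ≠ 0`. -/
theorem result {k F : Type*} [Field k] [IsAlgClosed k] [CharP k 2] [Field F] [Algebra k F]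
    [Algebra k[X] F] [Algebra (RatFunc k) F] [IsScalarTower k[X] (RatFunc k) F]
    [IsScalarTower k (RatFunc k) F] [IsScalarTower k k[X] F] [FiniteDimensional (RatFunc k) F]
    [Algebra.IsSeparable (RatFunc k) F] :
    (∀ m, 2 ≤ m → genus k F = 2 * m + 1 →
      kDim k F (m - 2) 1 ≡ (2 * m + 1).choose m [MOD 2]) ∧
    (∀ n, 3 ≤ n → genus k F = 2 ^ n - 1 → kDim k F (2 ^ (n - 1) - 3) 1 ≠ 0) := by
  have h1 : ∀ m, 2 ≤ m → genus k F = 2 * m + 1 →
      kDim k F (m - 2) 1 ≡ (2 * m + 1).choose m [MOD 2] := by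
    intro m hm hg
    obtain ⟨s, rfl⟩ : ∃ s, m = s + 2 := ⟨m - 2, by omega⟩
    have h := Pool.Agent.GrC.main_parity (k := k) (F := F) s (by omega)
    rw [show s + 2 - 2 = s by omega, show 2 * (s + 2) + 1 = 2 * s + 5 by ring]
    exact h
  refine ⟨h1, ?_⟩
  intro n hn hg
  obtain ⟨j, rfl⟩ : ∃ j, n = j + 3 := ⟨n - 3, by omega⟩
  have h4 : 4 ≤ 2 ^ (j + 2) := by
    rw [pow_add]
    have : 1 ≤ 2 ^ j := Nat.one_le_two_pow
    omega
  have hp : 2 ^ (j + 3) = 2 * 2 ^ (j + 2) := by rw [pow_succ]; ring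
  have h2 := h1 (2 ^ (j + 2) - 1) (by omega) (by omega)
  have h3 := Pool.Agent.GrC.choose_odd (j + 2)
  have h5 : kDim k F (2 ^ (j + 2) - 1 - 2) 1 % 2 = 1 := Eq.trans h2 h3
  rw [show j + 3 - 1 = j + 2 by omega, show 2 ^ (j + 2) - 3 = 2 ^ (j + 2) - 1 - 2 by omega]
  omega

end Pool.Agent.Results.MP_b7a493_ag.CharTwoParity
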