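import Mathlib
import Pool.Agent.GrC.Stmt
import Pool.Agent.GrP.CurveDef
import Pool.Agent.GrP.CurveSt
import Pool.Agent.GrP.NegI

/-!
Characteristic `p`: the exact length of the linear strand of the canonical rational curves `C` with
the `g` nodes `τ_l ~ ρ^(-1) τ_l`: `K_(i,1)(C, ω_C) = 0` iff the interval `[g - 1 - i, i]` contains a
number `a p^s` with `1 ≤ a < p`.  For `i = ⌊g/2⌋`: the vanishing `K_(⌊g/2⌋,1)(C, ω_C) = 0` of Green's
conjecture holds iff `g` is `2ap^s`, `2ap^s + 1` or `2ap^s + 2` for some `1 ≤ a < p`, `s ≥ 0`.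
-/

set_option autoImplicit false

namespace Pool.Agent.Results.MP_b7a493_ag.NodalStrand

open Pool.Agent.GrP

/-- Let `F` be a field of characteristic `p > 0`, let `g` and `i ≥ 1` be natural numbers, let `ρ` be
a nonzero element of `F` with `ρ^j ≠ 1` for `1 ≤ j ≤ g - i`, and let `τ_1, …, τ_g` be distinct nonzero
elements of `F` such that no `τ_l` equals a `ρ τ_l'`.  Let `C` be the curve which arises from `P¹`
by gluing `τ_l` to `ρ^(-1) τ_l` for all `l`.  Then `K_(i,1)(C, ω_C) = 0` iff `g - 1 - i ≤ a p^s ≤ i` for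
some `1 ≤ a < p` and `s ≥ 0`. -/
theorem result (p : ℕ) [Fact p.Prime] {F : Type*} [Field F] [CharP F p] (g i : ℕ) (hi : 1 ≤ i)
    (ρ : F) (hρ0 : ρ ≠ 0) (hρ : ∀ j, 1 ≤ j → j ≤ g - i → ρ ^ j ≠ 1)
    (τ : Fin g → F) (hτ0 : ∀ l, τ l ≠ 0) (hτ : Function.Injective τ)
    (hτρ : ∀ l l', τ l ≠ ρ * τ l') :
    kC τ (fun l => ρ⁻¹ * τ l) i 0 = 0 ↔
      ∃ a s, 1 ≤ a ∧ a < p ∧ g - 1 - i ≤ a * p ^ s ∧ a * p ^ s ≤ i := by
  obtain ⟨m, rfl⟩ : ∃ m, i = m + 1 := ⟨i - 1, by omega⟩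
  rw [kC_eq, kNod_iff_gen p g m ρ hρ0 (fun j h1 h2 => hρ j h1 (by omega)) τ hτ0 hτ hτρ]
  constructor
  · rintro ⟨a, s, ha, hap, h1, h2⟩
    exact ⟨a, s, ha, hap, by omega, h1⟩
  · rintro ⟨a, s, ha, hap, h1, h2⟩
    exact ⟨a, s, ha, hap, h2, by omega⟩

end Pool.Agent.Results.MP_b7a493_ag.NodalStrand
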