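import Mathlib
import Pool.Agent.GrT.St
import Pool.Agent.GrT.All

/-!
The positive half of the question for infinitely many pairs `(p, g)` with `p < (g - 1) / 2`.

Let `K` be an algebraically closed field of characteristic `p` which is not an algebraic closure of the
prime field (it has an element `x`, not zero and not a root of unity).  For every `g ≥ 3` there is a
smooth projective curve `X` of genus `g` over `K` with `K_(0,2)(X, ω_X) = 0` and `K_(j,2)(X, ω_X) = 0` for all
`j ≥ 1` for which some `a p^s` with `1 ≤ a < p`, `s ≥ 0` lies in the interval `[j + 1, g - 2 - j]`.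

For `g = 2q`, `2q + 1`, `2q + 2` with `q = a p^s` these are all `j ≤ (g - 3) / 2`: the general curve of
genus `g` in characteristic `p` satisfies Green's conjecture.
-/

set_option autoImplicit false

namespace Pool.Agent.Results.MP_b7a493_ag.SmoothGreen

open Polynomial Pool.Agent.GrS

/-- Let `K` be an algebraically closed field of characteristic `p` with an element `x` which is neither
zero nor a root of unity, and let `g ≥ 3`.  There is a smooth projective curve `X` of genus `g` over
`K` (given by its function field `E`, a finite separable extension of `K(t)`) such that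
`K_(0,2)(X, ω_X) = 0` and `K_(i+1,2)(X, ω_X) = 0` for all `i ≥ 0` for which some `a p^s` (`1 ≤ a < p`,
`s ≥ 0`) satisfies `i + 2 ≤ a p^s ≤ g - 3 - i`. -/
theorem result (K : Type) [Field K] [IsAlgClosed K] (p : ℕ) [Fact p.Prime] [CharP K p]
    (x : K) (hx0 : x ≠ 0) (hx : ∀ n, 1 ≤ n → x ^ n ≠ 1) (g : ℕ) (hg : 3 ≤ g) :
    ∃ (E : Type) (_ : Field E) (_ : Algebra K E) (_ : Algebra K[X] E)
      (_ : Algebra (RatFunc K) E) (_ : IsScalarTower K[X] (RatFunc K) E)
      (_ : IsScalarTower K (RatFunc K) E) (_ : IsScalarTower K K[X] E)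
      (_ : FiniteDimensional (RatFunc K) E) (_ : Algebra.IsSeparable (RatFunc K) E),
      genus K E = g ∧ KVanZero K E ∧
      ∀ i a s, 1 ≤ a → a < p → i + 2 ≤ a * p ^ s → a * p ^ s + i + 3 ≤ g → KVan K E i 1 := by
  obtain ⟨E, j1, j2, j3, j4, j5, j6, j7, j8, j9, hg', h0, h1⟩ :=
    Pool.Agent.GrT.green_all K p x hx0 hx g hg
  exact ⟨E, j1, j2, j3, j4, j5, j6, j7, j8, j9, hg', h0,
    fun i a s h2 h3 h4 h5 => (h1 i a s h2 h3 h4 h5).2⟩

end Pool.Agent.Results.MP_b7a493_ag.SmoothGreen
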